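import Mathlib
import Pool.Agent.Q18.SC.Stm

/-!
# Project SC, job RGA
-/

open Classical

namespace Pool.Agent.Q144.SC

open Pool.Agent.Q18.SC Finset

universe u

theorem top_of_half {G : Type u} [Group G] [Fintype G] (H : Subgroup G)
    (h : Fintype.card G < 2 * Nat.card H) : H = ⊤ := by
  apply Subgroup.eq_top_of_card_eq
  obtain ⟨m, hm⟩ := Subgroup.card_subgroup_dvd_card H
  rw [Nat.card_eq_fintype_card (α := G)] at hm ⊢
  have h3 : m = 1 := by
    have h4 : 0 < Fintype.card G := Fintype.card_pos
    have h5 : Nat.card H * m < 2 * Nat.card H := by rw [← hm]; omega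
    have h6 : m < 2 := by
      by_contra h7
      push Not at h7
      nlinarith
    have h8 : m ≠ 0 := by
      rintro rfl
      omega
    omega
  rw [hm, h3, mul_one]

theorem sum_row {G : Type u} [Fintype G] (s : Finset (G × G)) :
    ∑ x : G, (univ.filter (fun y => (x, y) ∈ s)).card = s.card := by
  have h1 : s.card = ∑ p : G × G, if p ∈ s then 1 else 0 := by simp
  rw [h1, Fintype.sum_prod_type]
  refine sum_congr rfl fun x _ => ?_
  rw [Finset.card_filter]

theorem sum_col {G : Type u} [Fintype G] (s : Finset (G × G)) :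
    ∑ y : G, (univ.filter (fun x => (x, y) ∈ s)).card = s.card := by
  have h1 : s.card = ∑ p : G × G, if p ∈ s then 1 else 0 := by simp
  rw [h1, Fintype.sum_prod_type_right]
  refine sum_congr rfl fun x _ => ?_
  rw [Finset.card_filter]

/-- the size of a complement -/
theorem card_not {G : Type u} [Fintype G] (p : G → Prop) [DecidablePred p]
    [DecidablePred fun x => ¬ p x] :
    ((univ.filter fun x => ¬ p x).card : ℝ) = (Fintype.card G : ℝ) - ((univ.filter p).card : ℝ) := by
  have h1 := Finset.card_filter_add_card_filter_not (s := (univ : Finset G)) p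
  rw [Finset.card_univ] at h1
  have h2 : ((univ.filter p).card : ℝ) + ((univ.filter fun x => ¬ p x).card : ℝ) =
      (Fintype.card G : ℝ) := by exact_mod_cast h1
  linarith

theorem rga (hcen : S_CEN.{u}) : S_RGA.{u} := by
  intro G _ _ f f' η hη hbad
  set n : ℝ := (Fintype.card G : ℝ) with hn
  have hn1 : (1 : ℝ) ≤ n := by
    rw [hn]; exact_mod_cast Fintype.card_pos
  have hn0 : 0 < n := by linarith
  have hη0 : 0 ≤ η := by
    have h1 : (0 : ℝ) ≤ η * n ^ 2 := le_trans (Nat.cast_nonneg _) hbad
    by_contra h2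
    push Not at h2
    nlinarith [mul_pos hn0 hn0]
  set bad := badInv f f' with hbd
  have hgood : ∀ x y, (x, y) ∉ bad → (y⁻¹ * x) ^ 2 = f' y * (f x)⁻¹ := by
    intro x y h
    by_contra h2
    exact h (Finset.mem_filter.2 ⟨Finset.mem_univ _, h2⟩)
  set row : G → ℝ := fun x => ((univ.filter (fun y => (x, y) ∈ bad)).card : ℝ) with hrow
  set col : G → ℝ := fun y => ((univ.filter (fun x => (x, y) ∈ bad)).card : ℝ) with hcol
  have hrow0 : ∀ x, 0 ≤ row x := fun x => Nat.cast_nonneg _
  have hcol0 : ∀ x, 0 ≤ col x := fun x => Nat.cast_nonneg _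
  have hrs : ∑ x, row x ≤ η * n ^ 2 := by
    refine le_trans (le_of_eq ?_) hbad
    rw [hrow, ← Nat.cast_sum, sum_row]
  have hcs : ∑ x, col x ≤ η * n ^ 2 := by
    refine le_trans (le_of_eq ?_) hbad
    rw [hcol, ← Nat.cast_sum, sum_col]
  -- the point x0
  obtain ⟨x0, hx0⟩ : ∃ x0, row x0 ≤ η * n := by
    by_contra hcon
    push Not at hcon
    have h1 : ∑ x : G, η * n < ∑ x, row x :=
      Finset.sum_lt_sum_of_nonempty ⟨1, Finset.mem_univ _⟩ fun x _ => hcon x
    rw [Finset.sum_const, Finset.card_univ, nsmul_eq_mul] at h1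
    nlinarith
  -- central elements
  have hcentral : ∀ x', row x' < (1 / 2 - η) * n → ∀ g : G, g * (x0⁻¹ * x') = (x0⁻¹ * x') * g := by
    intro x' hx'
    set k := x0⁻¹ * x' with hk
    set S := univ.filter (fun t : G => t⁻¹ * k⁻¹ * t = k * f x' * (f x0)⁻¹) with hS
    set Y := univ.filter (fun y : G => ¬ ((x0, y) ∈ bad ∨ (x', y) ∈ bad)) with hY
    have hYS : Y.card ≤ S.card := by
      apply Finset.card_le_card_of_injOn (fun y => y⁻¹ * x0)
      · intro y hy
        have hy' := (Finset.mem_filter.1 hy).2
        push Not at hy'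
        have h1 := hgood x0 y hy'.1
        have h2 := hgood x' y hy'.2
        refine Finset.mem_filter.2 ⟨Finset.mem_univ _, ?_⟩
        set t := y⁻¹ * x0 with ht
        have h3 : y⁻¹ * x' = t * k := by rw [ht, hk]; group
        rw [h3] at h2
        have h4 : f' y = t ^ 2 * f x0 := by rw [h1]; group
        have h5 : (t * k) ^ 2 * f x' = t ^ 2 * f x0 := by rw [h2, ← h4]; group
        have h6 : k * t * k * f x' = t * f x0 := by
          have h7 : t * (k * t * k * f x') = t * (t * f x0) := by
            calc t * (k * t * k * f x') = (t * k) ^ 2 * f x' := by rw [pow_two]; group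
              _ = t ^ 2 * f x0 := h5
              _ = t * (t * f x0) := by rw [pow_two]; group
          exact mul_left_cancel h7
        have h8 : t * k * f x' = k⁻¹ * t * f x0 := by
          calc t * k * f x' = k⁻¹ * (k * t * k * f x') := by group
            _ = k⁻¹ * t * f x0 := by rw [h6]; group
        calc t⁻¹ * k⁻¹ * t = t⁻¹ * (k⁻¹ * t * f x0) * (f x0)⁻¹ := by group
          _ = t⁻¹ * (t * k * f x') * (f x0)⁻¹ := by rw [h8]
          _ = k * f x' * (f x0)⁻¹ := by group
      · intro a _ b _ hab
        exact inv_injective (mul_right_cancel hab)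
    have hYc : n / 2 < (Y.card : ℝ) := by
      rw [hY, card_not]
      have h1 : ((univ.filter fun y => ((x0, y) ∈ bad ∨ (x', y) ∈ bad)).card : ℝ) ≤ row x0 + row x' := by
        have h2 := Finset.card_union_le (univ.filter fun y => (x0, y) ∈ bad)
          (univ.filter fun y => (x', y) ∈ bad)
        rw [← Finset.filter_or] at h2
        have h3 : ((univ.filter fun y => ((x0, y) ∈ bad ∨ (x', y) ∈ bad)).card : ℝ) ≤
          ((univ.filter fun y => (x0, y) ∈ bad).card : ℝ) +
          ((univ.filter fun y => (x', y) ∈ bad).card : ℝ) := by exact_mod_cast h2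
        exact h3
      rw [← hn]
      nlinarith
    have h1 : Fintype.card G < 2 * S.card := by
      have h2 : (Y.card : ℝ) ≤ S.card := by exact_mod_cast hYS
      have h3 : (Fintype.card G : ℝ) < 2 * (S.card : ℝ) := by rw [← hn]; linarith
      exact_mod_cast h3
    have h4 := hcen G k⁻¹ _ h1
    intro g
    have h5 := h4 g
    calc g * k = k * (k⁻¹ * g) * k := by group
      _ = k * (g * k⁻¹) * k := by rw [h5]
      _ = k * g := by group
  -- the group is commutative
  have hcomm : ∀ a b : G, a * b = b * a := by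
    have htop : Subgroup.center G = ⊤ := by
      apply top_of_half
      set X := univ.filter (fun x' : G => ¬ ((1 / 2 - η) * n ≤ row x')) with hX
      have h1 : X.card ≤ Nat.card (Subgroup.center G) := by
        rw [Nat.card_eq_fintype_card, ← Fintype.card_coe X]
        refine Fintype.card_le_of_injective (fun t : X => (⟨x0⁻¹ * t.1, ?_⟩ : Subgroup.center G)) ?_
        · rw [Subgroup.mem_center_iff]
          have := (Finset.mem_filter.1 t.2).2
          push Not at this
          exact hcentral t.1 this
        · intro t t' htt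
          apply Subtype.ext
          have := congrArg Subtype.val htt
          exact mul_left_cancel this
      have h2 : n / 2 < (X.card : ℝ) := by
        rw [hX, card_not, ← hn]
        set A := univ.filter (fun x' : G => (1 / 2 - η) * n ≤ row x') with hA
        have h3 : (A.card : ℝ) * ((1 / 2 - η) * n) ≤ η * n ^ 2 := by
          refine le_trans ?_ hrs
          refine le_trans ?_ (Finset.sum_le_univ_sum_of_nonneg (s := A) hrow0)
          rw [← nsmul_eq_mul]
          exact Finset.card_nsmul_le_sum _ _ _ fun x hx => (Finset.mem_filter.1 hx).2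
        have h4 : (A.card : ℝ) * (7 / 16) ≤ 1 / 16 * n := by
          have h5 : (A.card : ℝ) * (1 / 2 - η) ≤ η * n := by
            have h6 : ((A.card : ℝ) * (1 / 2 - η)) * n ≤ (η * n) * n := by nlinarith
            exact le_of_mul_le_mul_right h6 hn0
          have h7 : (0 : ℝ) ≤ A.card := Nat.cast_nonneg _
          nlinarith
        linarith
      have h3 : (X.card : ℝ) ≤ Nat.card (Subgroup.center G) := by exact_mod_cast h1
      have h4 : (Fintype.card G : ℝ) < 2 * (Nat.card (Subgroup.center G) : ℝ) := by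
        rw [← hn]; linarith
      exact_mod_cast h4
    intro a b
    have hb : b ∈ Subgroup.center G := by rw [htop]; trivial
    rw [Subgroup.mem_center_iff] at hb
    exact hb a
  have hgood2 : ∀ x y, (x, y) ∉ bad → f' y * (y * y) = x * x * f x := by
    intro x y h
    have h1 := hgood x y h
    have h2 : y⁻¹ * x = x * y⁻¹ := hcomm _ _
    have h3 : f' y = (y⁻¹ * x) * (y⁻¹ * x) * f x := by
      rw [← pow_two, h1]; group
    calc f' y * (y * y) = ((y⁻¹ * x) * (y⁻¹ * x) * f x) * (y * y) := by rw [h3]
      _ = (y⁻¹ * x) * (y⁻¹ * x) * (f x * (y * y)) := by group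
      _ = (x * y⁻¹) * (x * y⁻¹) * ((y * y) * f x) := by rw [h2, hcomm (f x) (y * y)]
      _ = x * (y⁻¹ * x) * y * f x := by group
      _ = x * (x * y⁻¹) * y * f x := by rw [h2]
      _ = x * x * f x := by group
  set e := x0 * x0 * f x0 with he
  set D' := univ.filter (fun y : G => ¬ (x0, y) ∈ bad) with hD'
  have hD'c : n - η * n ≤ (D'.card : ℝ) := by
    rw [hD', card_not, ← hn]
    linarith
  have hD'e : ∀ y ∈ D', f' y * (y * y) = e := by
    intro y hy
    exact hgood2 x0 y (Finset.mem_filter.1 hy).2
  obtain ⟨y0, hy0, hy0c⟩ : ∃ y0 ∈ D', col y0 ≤ 2 * η * n := by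
    by_contra hcon
    push Not at hcon
    have hne : D'.Nonempty := by
      rw [← Finset.card_pos]
      have : (0 : ℝ) < D'.card := by nlinarith
      exact_mod_cast this
    have h1 : ∑ x ∈ D', 2 * η * n < ∑ x ∈ D', col x :=
      Finset.sum_lt_sum_of_nonempty hne fun x hx => hcon x hx
    rw [Finset.sum_const, nsmul_eq_mul] at h1
    have h2 : ∑ x ∈ D', col x ≤ ∑ x, col x := Finset.sum_le_univ_sum_of_nonneg hcol0
    have h3 : (n - η * n) * (2 * η * n) ≤ (D'.card : ℝ) * (2 * η * n) :=
      mul_le_mul_of_nonneg_right hD'c (by positivity)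
    have h4 : (n - η * n) * (2 * η * n) = (1 - η) * 2 * (η * n ^ 2) := by ring
    have h5 : 0 ≤ η * n ^ 2 := by positivity
    nlinarith
  set D := univ.filter (fun x : G => ¬ (x, y0) ∈ bad) with hD
  have hDe : ∀ x ∈ D, x * x * f x = e := by
    intro x hx
    rw [← hgood2 x y0 (Finset.mem_filter.1 hx).2]
    exact hD'e y0 hy0
  have hsub : (univ.filter (fun x : G => f x ≠ f' x)) ⊆
      (univ.filter fun x => (x, y0) ∈ bad) ∪ (univ.filter fun y => (x0, y) ∈ bad) := by
    intro z hz
    have hz' := (Finset.mem_filter.1 hz).2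
    by_contra hcon
    rw [Finset.mem_union, not_or] at hcon
    have h1 : z ∈ D := by
      refine Finset.mem_filter.2 ⟨Finset.mem_univ _, fun h => hcon.1 ?_⟩
      exact Finset.mem_filter.2 ⟨Finset.mem_univ _, h⟩
    have h2 : z ∈ D' := by
      refine Finset.mem_filter.2 ⟨Finset.mem_univ _, fun h => hcon.2 ?_⟩
      exact Finset.mem_filter.2 ⟨Finset.mem_univ _, h⟩
    apply hz'
    have h3 : z * z * f z = z * z * f' z := by
      rw [hDe z h1, ← hD'e z h2, hcomm]
    exact mul_left_cancel h3
  have h1 := (Finset.card_le_card hsub).trans (Finset.card_union_le _ _)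
  have h2 : ((univ.filter (fun x : G => f x ≠ f' x)).card : ℝ) ≤
      ((univ.filter fun x => (x, y0) ∈ bad).card : ℝ) +
      ((univ.filter fun y => (x0, y) ∈ bad).card : ℝ) := by exact_mod_cast h1
  have h3 : ((univ.filter fun x => (x, y0) ∈ bad).card : ℝ) = col y0 := rfl
  have h4 : ((univ.filter fun y => (x0, y) ∈ bad).card : ℝ) = row x0 := rfl
  rw [h3, h4] at h2
  linarith

end Pool.Agent.Q144.SC
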