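import Mathlib
import Pool.Agent.Q144.SC.Rga

/-!
# Project SC, job ANT
-/

open Classical

namespace Pool.Agent.Q144.SC

open Pool.Agent.Q18.SC Finset

universe u

/-- two square roots of an involution whose quotient is a square root of it -/
theorem anti_of {G : Type u} [Group G] {w s t : G} (hww : w * w = 1) (ht : t * t = w)
    (hs : s * s = w) (h : (t⁻¹ * s) ^ 2 = w) : s * t = w * (t * s) := by
  have hwt : w * t = t * w := by rw [← ht]; group
  have hws : w * s = s * w := by rw [← hs]; group
  have hti : t⁻¹ = w * t := by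
    apply inv_eq_of_mul_eq_one_left
    rw [mul_assoc, ht, hww]
  have hsi : s⁻¹ = w * s := by
    apply inv_eq_of_mul_eq_one_left
    rw [mul_assoc, hs, hww]
  have h1 : s * t * s = t := by
    have h2 : s * (w * t) * s = t * w := by
      rw [← hti]
      have h3 : t⁻¹ * (s * t⁻¹ * s) = w := by rw [← h, pow_two]; group
      calc s * t⁻¹ * s = t * (t⁻¹ * (s * t⁻¹ * s)) := by group
        _ = t * w := by rw [h3]
    have h4 : w * (s * t * s) = w * t := by
      calc w * (s * t * s) = (w * s) * t * s := by group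
        _ = (s * w) * t * s := by rw [hws]
        _ = s * (w * t) * s := by group
        _ = t * w := h2
        _ = w * t := hwt.symm
    exact mul_left_cancel h4
  calc s * t = (s * t * s) * s⁻¹ := by group
    _ = t * (w * s) := by rw [h1, hsi]
    _ = (t * w) * s := by group
    _ = (w * t) * s := by rw [hwt]
    _ = w * (t * s) := by group

/-- the elements anticommuting with all elements of a list -/
noncomputable def SL {G : Type u} [Group G] [Fintype G] (w : G) (L : List G) : Finset G :=
  univ.filter fun s => ∀ t ∈ L, s * t = w * (t * s)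

theorem mem_SL {G : Type u} [Group G] [Fintype G] {w s : G} {L : List G} :
    s ∈ SL w L ↔ ∀ t ∈ L, s * t = w * (t * s) := by
  simp [SL]

theorem key {G : Type u} [Group G] [Fintype G] {w t v : G} {L : List G} (hw : w ≠ 1)
    (hww : w * w = 1) (ht : t ∈ SL w L) (hv : v ∈ SL w (t :: L)) (hwt : w * t = t * w)
    (hwv : w * v = v * w) : 2 * (SL w (t :: L)).card ≤ (SL w L).card := by
  rw [mem_SL] at ht hv
  have hvt := hv t (by simp)
  have hvl : ∀ l ∈ L, v * l = w * (l * v) := fun l hl => hv l (by simp [hl])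
  set u := v * t⁻¹ with hu
  have hwi : w⁻¹ = w := inv_eq_of_mul_eq_one_left hww
  have hwti : w * t⁻¹ = t⁻¹ * w := by
    calc w * t⁻¹ = t⁻¹ * (t * w) * t⁻¹ := by group
      _ = t⁻¹ * (w * t) * t⁻¹ := by rw [hwt]
      _ = t⁻¹ * w := by group
  have hul : ∀ l ∈ L, u * l = l * u := by
    intro l hl
    have h1 := ht l hl
    have h2 : t⁻¹ * l = w * (l * t⁻¹) := by
      calc t⁻¹ * l = (w * w) * (t⁻¹ * l) := by rw [hww, one_mul]
        _ = w * ((w * t⁻¹) * l) := by group
        _ = w * ((t⁻¹ * w) * l) := by rw [hwti]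
        _ = w * (t⁻¹ * (w * (l * t)) * t⁻¹) := by group
        _ = w * (t⁻¹ * (t * l) * t⁻¹) := by rw [h1]
        _ = w * (l * t⁻¹) := by group
    calc u * l = v * (t⁻¹ * l) := by rw [hu]; group
      _ = v * (w * (l * t⁻¹)) := by rw [h2]
      _ = (v * w) * (l * t⁻¹) := by group
      _ = (w * v) * (l * t⁻¹) := by rw [hwv]
      _ = w * (v * l) * t⁻¹ := by group
      _ = w * (w * (l * v)) * t⁻¹ := by rw [hvl l hl]
      _ = (w * w) * (l * (v * t⁻¹)) := by group
      _ = l * u := by rw [hww, one_mul]
  have hwu : w * u = u * w := by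
    calc w * u = (w * v) * t⁻¹ := by rw [hu]; group
      _ = (v * w) * t⁻¹ := by rw [hwv]
      _ = v * (w * t⁻¹) := by group
      _ = v * (t⁻¹ * w) := by rw [hwti]
      _ = u * w := by rw [hu]; group
  have hut : u * t = w * (t * u) := by
    calc u * t = v := by rw [hu]; group
      _ = (w * w) * v := by rw [hww, one_mul]
      _ = w * (w * v) := by group
      _ = w * ((w * (t * v)) * t⁻¹ * (w * w)⁻¹ * w * 1) := by
          rw [← hvt, hww]
          rw [hwv]
          group
      _ = w * (t * u) := by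
          rw [hww, inv_one, mul_one, mul_one]
          congr 1
          calc w * (t * v) * t⁻¹ * w = w * (t * v) * (t⁻¹ * w) := by group
            _ = w * (t * v) * (w * t⁻¹) := by rw [hwti]
            _ = w * t * (v * w) * t⁻¹ := by group
            _ = w * t * (w * v) * t⁻¹ := by rw [hwv]
            _ = w * (t * w) * v * t⁻¹ := by group
            _ = w * (w * t) * v * t⁻¹ := by rw [hwt]
            _ = (w * w) * (t * (v * t⁻¹)) := by group
            _ = t * u := by rw [hww, one_mul]
  have hmap : ∀ s ∈ SL w (t :: L), u * s ∈ SL w L \ SL w (t :: L) := by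
    intro s hs
    rw [mem_SL] at hs
    rw [Finset.mem_sdiff, mem_SL, mem_SL]
    constructor
    · intro l hl
      calc u * s * l = u * (s * l) := by group
        _ = u * (w * (l * s)) := by rw [hs l (by simp [hl])]
        _ = (u * w) * l * s := by group
        _ = (w * u) * l * s := by rw [hwu]
        _ = w * (u * l) * s := by group
        _ = w * (l * u) * s := by rw [hul l hl]
        _ = w * (l * (u * s)) := by group
    · intro hcon
      have h1 := hcon t (by simp)
      have h2 : u * s * t = t * (u * s) := by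
        calc u * s * t = u * (s * t) := by group
          _ = u * (w * (t * s)) := by rw [hs t (by simp)]
          _ = (u * w) * t * s := by group
          _ = (w * u) * t * s := by rw [hwu]
          _ = w * (u * t) * s := by group
          _ = w * (w * (t * u)) * s := by rw [hut]
          _ = (w * w) * (t * (u * s)) := by group
          _ = t * (u * s) := by rw [hww, one_mul]
      rw [h2] at h1
      apply hw
      have h3 : 1 * (t * (u * s)) = w * (t * (u * s)) := by rw [one_mul]; exact h1
      exact (mul_right_cancel h3).symm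
  have hsub : SL w (t :: L) ⊆ SL w L := by
    intro s hs
    rw [mem_SL] at hs ⊢
    exact fun l hl => hs l (by simp [hl])
  have h1 : (SL w (t :: L)).card ≤ (SL w L \ SL w (t :: L)).card :=
    Finset.card_le_card_of_injOn (fun s => u * s) hmap fun a _ b _ hab => mul_left_cancel hab
  have h2 := Finset.card_sdiff_add_card_eq_card hsub
  omega

theorem ant : S_ANT.{u} := by
  intro d hd
  obtain ⟨m0, hm0⟩ := pow_unbounded_of_one_lt (4 / d) (one_lt_two)
  set m := m0 + 1 with hm
  have hm1 : (1 : ℝ) ≤ m := by rw [hm]; push_cast; linarith [(Nat.cast_nonneg m0 : (0 : ℝ) ≤ m0)]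
  have hm2 : 4 / d < (2 : ℝ) ^ m := by
    refine lt_of_lt_of_le hm0 ?_
    exact pow_le_pow_right₀ (by norm_num) (by omega)
  have hm3 : 4 < (2 : ℝ) ^ m * d := by rwa [div_lt_iff₀ hd] at hm2
  refine ⟨d ^ 2 / (128 * m), by positivity, ?_⟩
  intro G _ _ w Y hw hY
  by_contra hcon
  push Not at hcon
  set n : ℝ := (Fintype.card G : ℝ) with hn
  have hn1 : (1 : ℝ) ≤ n := by
    rw [hn]; exact_mod_cast Fintype.card_pos
  have hn0 : 0 < n := by linarith
  set η : ℝ := d / (8 * m) with hη
  have hη0 : 0 < η := by positivity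
  set c : ℝ := d ^ 2 / (128 * m) with hc
  have hc0 : 0 < c := by positivity
  set badY := (Y ×ˢ Y).filter (fun p : G × G => (p.2⁻¹ * p.1) ^ 2 ≠ w) with hbY
  have hgood : ∀ x ∈ Y, ∀ y ∈ Y, (x, y) ∉ badY → (y⁻¹ * x) ^ 2 = w := by
    intro x hx y hy h
    by_contra h2
    exact h (Finset.mem_filter.2 ⟨Finset.mem_product.2 ⟨hx, hy⟩, h2⟩)
  set row : G → ℝ := fun x => ((univ.filter (fun y => (x, y) ∈ badY)).card : ℝ) with hrow
  set col : G → ℝ := fun y => ((univ.filter (fun x => (x, y) ∈ badY)).card : ℝ) with hcol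
  have hrow0 : ∀ x, 0 ≤ row x := fun x => Nat.cast_nonneg _
  have hcol0 : ∀ x, 0 ≤ col x := fun x => Nat.cast_nonneg _
  have hrs : ∑ x, row x ≤ c * n ^ 2 := by
    refine le_trans (le_of_eq ?_) hcon
    rw [hrow, ← Nat.cast_sum, sum_row]
  have hcs : ∑ x, col x ≤ c * n ^ 2 := by
    refine le_trans (le_of_eq ?_) hcon
    rw [hcol, ← Nat.cast_sum, sum_col]
  have hYc : 0 < (Y.card : ℝ) := lt_of_lt_of_le (by positivity) hY
  -- the point x1
  obtain ⟨x1, hx1, hx1c⟩ : ∃ x1 ∈ Y, row x1 + col x1 ≤ 2 * c / d * n := by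
    by_contra hcon2
    push Not at hcon2
    have hne : Y.Nonempty := by
      rw [← Finset.card_pos]
      exact_mod_cast hYc
    have h1 : ∑ x ∈ Y, 2 * c / d * n < ∑ x ∈ Y, (row x + col x) :=
      Finset.sum_lt_sum_of_nonempty hne fun x hx => hcon2 x hx
    rw [Finset.sum_const, nsmul_eq_mul, Finset.sum_add_distrib] at h1
    have h2 : ∑ x ∈ Y, row x ≤ ∑ x, row x := Finset.sum_le_univ_sum_of_nonneg hrow0
    have h3 : ∑ x ∈ Y, col x ≤ ∑ x, col x := Finset.sum_le_univ_sum_of_nonneg hcol0
    have h4 : d * n * (2 * c / d * n) ≤ (Y.card : ℝ) * (2 * c / d * n) :=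
      mul_le_mul_of_nonneg_right hY (by positivity)
    have h5 : d * n * (2 * c / d * n) = 2 * (c * n ^ 2) := by field_simp
    linarith
  set D := univ.filter (fun t : G => x1 * t ∈ Y ∧ (x1 * t, x1) ∉ badY ∧ (x1, x1 * t) ∉ badY) with hD
  have hDY : ∀ t ∈ D, x1 * t ∈ Y := fun t ht => (Finset.mem_filter.1 ht).2.1
  have hDsq : ∀ t ∈ D, t * t = w := by
    intro t ht
    have h1 := hgood _ (hDY t ht) _ hx1 (Finset.mem_filter.1 ht).2.2.1
    rw [← h1, pow_two]
    group
  have hDsq' : ∀ t ∈ D, t⁻¹ * t⁻¹ = w := by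
    intro t ht
    have h1 := hgood _ hx1 _ (hDY t ht) (Finset.mem_filter.1 ht).2.2.2
    rw [← h1, pow_two]
    group
  have hDc : 3 / 4 * d * n ≤ (D.card : ℝ) := by
    -- `Y` is covered by the translate of `D` and two exceptional sets
    have h1 : Y ⊆ D.image (fun t => x1 * t) ∪ ((univ.filter (fun y => (x1, y) ∈ badY)) ∪
        (univ.filter (fun x => (x, x1) ∈ badY))) := by
      intro y hy
      by_cases h2 : (x1, y) ∈ badY
      · exact Finset.mem_union_right _ (Finset.mem_union_left _
          (Finset.mem_filter.2 ⟨Finset.mem_univ _, h2⟩))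
      by_cases h3 : (y, x1) ∈ badY
      · exact Finset.mem_union_right _ (Finset.mem_union_right _
          (Finset.mem_filter.2 ⟨Finset.mem_univ _, h3⟩))
      refine Finset.mem_union_left _ (Finset.mem_image.2 ⟨x1⁻¹ * y, ?_, mul_inv_cancel_left _ _⟩)
      refine Finset.mem_filter.2 ⟨Finset.mem_univ _, ?_⟩
      rw [mul_inv_cancel_left]
      exact ⟨hy, h3, h2⟩
    have h2 := (Finset.card_le_card h1).trans ((Finset.card_union_le _ _).trans
      (Nat.add_le_add Finset.card_image_le (Finset.card_union_le _ _)))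
    have h3 : (Y.card : ℝ) ≤ (D.card : ℝ) + (((univ.filter (fun y => (x1, y) ∈ badY)).card : ℝ) +
        ((univ.filter (fun x => (x, x1) ∈ badY)).card : ℝ)) := by exact_mod_cast h2
    have h4 : (Y.card : ℝ) ≤ (D.card : ℝ) + (row x1 + col x1) := h3
    have h5 : 2 * c / d * n ≤ d / 4 * n := by
      apply mul_le_mul_of_nonneg_right _ hn0.le
      rw [hc]
      have h6 : 2 * (d ^ 2 / (128 * (m : ℝ))) / d = d / 64 / m := by field_simp; norm_num
      rw [h6]
      rw [div_le_iff₀ (by linarith)]
      nlinarith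
    linarith
  have hDne : D.Nonempty := by
    rw [← Finset.card_pos]
    have : (0 : ℝ) < D.card := lt_of_lt_of_le (by positivity) hDc
    exact_mod_cast this
  have hww : w * w = 1 := by
    obtain ⟨t, ht⟩ := hDne
    have h1 := hDsq t ht
    have h2 := hDsq' t ht
    calc w * w = (t * t) * (t⁻¹ * t⁻¹) := by rw [h1, h2]
      _ = 1 := by group
  have hwD : ∀ t ∈ D, w * t = t * w := by
    intro t ht
    rw [← hDsq t ht]
    group
  have hanti : ∀ t ∈ D, ∀ s ∈ D, (x1 * s, x1 * t) ∉ badY → s * t = w * (t * s) := by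
    intro t ht s hs h
    have h1 := hgood _ (hDY s hs) _ (hDY t ht) h
    refine anti_of hww (hDsq t ht) (hDsq s hs) ?_
    rw [← h1]
    congr 1
    group
  set na : G → ℝ := fun t => ((D.filter (fun s => ¬ s * t = w * (t * s))).card : ℝ) with hna
  have hna0 : ∀ t, 0 ≤ na t := fun t => Nat.cast_nonneg _
  have hnac : ∀ t ∈ D, na t ≤ col (x1 * t) := by
    intro t ht
    have h1 : (D.filter (fun s => ¬ s * t = w * (t * s))).card ≤
        (univ.filter (fun x => (x, x1 * t) ∈ badY)).card := by
      apply Finset.card_le_card_of_injOn (fun s => x1 * s)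
      · intro s hs
        have hs' := Finset.mem_filter.1 hs
        refine Finset.mem_filter.2 ⟨Finset.mem_univ _, ?_⟩
        by_contra h2
        exact hs'.2 (hanti t ht s hs'.1 h2)
      · intro a _ b _ hab
        exact mul_left_cancel hab
    have h2 : ((D.filter (fun s => ¬ s * t = w * (t * s))).card : ℝ) ≤
        ((univ.filter (fun x => (x, x1 * t) ∈ badY)).card : ℝ) := by exact_mod_cast h1
    exact h2
  have hnas : ∑ t ∈ D, na t ≤ c * n ^ 2 := by
    refine le_trans (Finset.sum_le_sum hnac) ?_
    refine le_trans (Finset.sum_le_univ_sum_of_nonneg fun t => hcol0 _) ?_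
    refine le_trans (le_of_eq ?_) hcs
    exact Fintype.sum_equiv (Equiv.mulLeft x1) _ _ fun t => rfl
  set E := D.filter (fun t => ¬ na t ≤ η * n) with hE
  set Ds := D.filter (fun t => na t ≤ η * n) with hDs
  have hEc : (E.card : ℝ) ≤ d / 16 * n := by
    have h1 : (E.card : ℝ) * (η * n) ≤ c * n ^ 2 := by
      refine le_trans ?_ hnas
      have hED : E ⊆ D := Finset.filter_subset _ D
      refine le_trans ?_ (Finset.sum_le_sum_of_subset_of_nonneg hED
        fun t _ _ => hna0 t)
      rw [← nsmul_eq_mul]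
      refine Finset.card_nsmul_le_sum _ _ _ fun t ht => ?_
      have := (Finset.mem_filter.1 ht).2
      push Not at this
      exact this.le
    have h2 : c * n ^ 2 = (d / 16 * n) * (η * n) := by
      rw [hc, hη]; field_simp; norm_num
    rw [h2] at h1
    exact le_of_mul_le_mul_right h1 (by positivity)
  have hDsc : (D.card : ℝ) - d / 16 * n ≤ (Ds.card : ℝ) := by
    have h1 := Finset.card_filter_add_card_filter_not (s := D) (fun t => na t ≤ η * n)
    have h2 : (Ds.card : ℝ) + (E.card : ℝ) = (D.card : ℝ) := by exact_mod_cast h1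
    linarith
  -- elements of `D` outside `S(L)`
  have hout : ∀ L : List G, (∀ t ∈ L, t ∈ Ds) →
      ((D.filter (fun s => ¬ ∀ t ∈ L, s * t = w * (t * s))).card : ℝ) ≤ L.length * (η * n) := by
    intro L
    induction L with
    | nil => intro _; simp
    | cons a L ih =>
      intro hL
      have h1 := ih fun t ht => hL t (by simp [ht])
      have h2 : na a ≤ η * n := (Finset.mem_filter.1 (hL a (by simp))).2
      have h3 : (D.filter (fun s => ¬ ∀ t ∈ a :: L, s * t = w * (t * s))) ⊆
          (D.filter (fun s => ¬ s * a = w * (a * s))) ∪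
          (D.filter (fun s => ¬ ∀ t ∈ L, s * t = w * (t * s))) := by
        intro s hs
        obtain ⟨hs1, hs2⟩ := Finset.mem_filter.1 hs
        by_cases h4 : s * a = w * (a * s)
        · refine Finset.mem_union_right _ (Finset.mem_filter.2 ⟨hs1, fun h5 => hs2 ?_⟩)
          intro t ht
          rcases List.mem_cons.1 ht with rfl | ht
          · exact h4
          · exact h5 t ht
        · exact Finset.mem_union_left _ (Finset.mem_filter.2 ⟨hs1, h4⟩)
      have h4 := (Finset.card_le_card h3).trans (Finset.card_union_le _ _)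
      have h5 : ((D.filter (fun s => ¬ ∀ t ∈ a :: L, s * t = w * (t * s))).card : ℝ) ≤
          ((D.filter (fun s => ¬ s * a = w * (a * s))).card : ℝ) +
          ((D.filter (fun s => ¬ ∀ t ∈ L, s * t = w * (t * s))).card : ℝ) := by exact_mod_cast h4
      have h6 : ((D.filter (fun s => ¬ s * a = w * (a * s))).card : ℝ) = na a := rfl
      rw [h6] at h5
      rw [List.length_cons]
      push_cast
      linarith
  have hmη : (m : ℝ) * (η * n) = d / 8 * n := by
    rw [hη]; field_simp
  have hmain : ∀ i : ℕ, i ≤ m → ∃ L : List G, L.length = i ∧ (∀ t ∈ L, t ∈ Ds) ∧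
      (2 : ℝ) ^ i * ((SL w L).card : ℝ) ≤ n := by
    intro i
    induction i with
    | zero =>
      intro _
      refine ⟨[], rfl, by simp, ?_⟩
      have h1 : ((SL w ([] : List G)).card : ℝ) ≤ n := by
        rw [hn]; exact_mod_cast Finset.card_le_univ _
      simpa using h1
    | succ i ih =>
      intro hi
      obtain ⟨L, hL1, hL2, hL3⟩ := ih (by omega)
      have h1 := hout L hL2
      rw [hL1] at h1
      have hηn : 0 < η * n := by positivity
      have h2 : (i : ℝ) * (η * n) ≤ d / 8 * n := by
        rw [← hmη]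
        apply mul_le_mul_of_nonneg_right _ hηn.le
        exact_mod_cast (by omega : i ≤ m)
      obtain ⟨t, htD, htL⟩ : ∃ t ∈ Ds, t ∈ SL w L := by
        by_contra hcon2
        push Not at hcon2
        have h3 : Ds ⊆ D.filter (fun s => ¬ ∀ t ∈ L, s * t = w * (t * s)) := by
          intro s hs
          refine Finset.mem_filter.2 ⟨(Finset.mem_filter.1 hs).1, fun h4 => hcon2 s hs ?_⟩
          rw [mem_SL]; exact h4
        have h4 : (Ds.card : ℝ) ≤
            ((D.filter (fun s => ¬ ∀ t ∈ L, s * t = w * (t * s))).card : ℝ) := by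
          exact_mod_cast Finset.card_le_card h3
        have h5 : 0 < d * n := by positivity
        nlinarith
      have hL2' : ∀ t' ∈ t :: L, t' ∈ Ds := by
        intro t' ht'
        rcases List.mem_cons.1 ht' with rfl | ht'
        · exact htD
        · exact hL2 t' ht'
      have h3 := hout (t :: L) hL2'
      rw [List.length_cons, hL1] at h3
      have h4 : ((i + 1 : ℕ) : ℝ) * (η * n) ≤ d / 8 * n := by
        rw [← hmη]
        apply mul_le_mul_of_nonneg_right _ hηn.le
        exact_mod_cast hi
      obtain ⟨v, hvD, hvL⟩ : ∃ v ∈ D, v ∈ SL w (t :: L) := by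
        by_contra hcon2
        push Not at hcon2
        have h5 : D ⊆ D.filter (fun s => ¬ ∀ t' ∈ t :: L, s * t' = w * (t' * s)) := by
          intro s hs
          refine Finset.mem_filter.2 ⟨hs, fun h4 => hcon2 s hs ?_⟩
          rw [mem_SL]; exact h4
        have h6 : (D.card : ℝ) ≤
            ((D.filter (fun s => ¬ ∀ t' ∈ t :: L, s * t' = w * (t' * s))).card : ℝ) := by
          exact_mod_cast Finset.card_le_card h5
        have h7 : 0 < d * n := by positivity
        nlinarith
      have h5 := key hw hww htL hvL (hwD t (Finset.mem_filter.1 htD).1) (hwD v hvD)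
      refine ⟨t :: L, by rw [List.length_cons, hL1], hL2', ?_⟩
      have h6 : 2 * ((SL w (t :: L)).card : ℝ) ≤ ((SL w L).card : ℝ) := by exact_mod_cast h5
      calc (2 : ℝ) ^ (i + 1) * ((SL w (t :: L)).card : ℝ) =
          2 ^ i * (2 * ((SL w (t :: L)).card : ℝ)) := by ring
        _ ≤ 2 ^ i * ((SL w L).card : ℝ) := by gcongr
        _ ≤ n := hL3
  obtain ⟨L, hL1, hL2, hL3⟩ := hmain m le_rfl
  have h1 := hout L hL2
  rw [hL1, hmη] at h1
  have h2 : (D.card : ℝ) ≤ ((SL w L).card : ℝ) +
      ((D.filter (fun s => ¬ ∀ t ∈ L, s * t = w * (t * s))).card : ℝ) := by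
    have h3 : D ⊆ SL w L ∪ D.filter (fun s => ¬ ∀ t ∈ L, s * t = w * (t * s)) := by
      intro s hs
      by_cases h4 : ∀ t ∈ L, s * t = w * (t * s)
      · exact Finset.mem_union_left _ (mem_SL.2 h4)
      · exact Finset.mem_union_right _ (Finset.mem_filter.2 ⟨hs, h4⟩)
    exact_mod_cast (Finset.card_le_card h3).trans (Finset.card_union_le _ _)
  have h3 : 5 / 8 * d * n ≤ ((SL w L).card : ℝ) := by linarith
  have h4 : (2 : ℝ) ^ m * (5 / 8 * d * n) ≤ n := le_trans (by gcongr) hL3
  have h5 : (2 : ℝ) ^ m * d * n ≤ 8 / 5 * n := by nlinarith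
  have h6 : 4 * n < (2 : ℝ) ^ m * d * n := mul_lt_mul_of_pos_right hm3 hn0
  linarith

end Pool.Agent.Q144.SC
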