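import Mathlib
import Pool.Agent.Q18.SC.Stm

/-!
# Project SC, jobs CEN and MIL
-/

open Classical

namespace Pool.Agent.Q144.SC

open Pool.Agent.Q18.SC

universe u

theorem cen : S_CEN.{u} := by
  intro G _ _ k c h
  set S := Finset.univ.filter (fun t : G => t⁻¹ * k * t = c) with hS
  have hne : S.Nonempty := by
    rw [← Finset.card_pos]
    omega
  obtain ⟨t0, ht0⟩ := hne
  have ht0' : t0⁻¹ * k * t0 = c := (Finset.mem_filter.1 ht0).2
  set H := Subgroup.centralizer ({k} : Set G) with hH
  have hmem : ∀ t ∈ S, t * t0⁻¹ ∈ H := by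
    intro t ht
    have ht' : t⁻¹ * k * t = c := (Finset.mem_filter.1 ht).2
    rw [hH, Subgroup.mem_centralizer_singleton_iff]
    have h1 : t⁻¹ * k * t = t0⁻¹ * k * t0 := ht'.trans ht0'.symm
    have h2 : k * t = t * (t0⁻¹ * k * t0) := by
      rw [← h1]; group
    calc t * t0⁻¹ * k = t * (t0⁻¹ * k * t0) * t0⁻¹ := by group
      _ = k * t * t0⁻¹ := by rw [h2]
      _ = k * (t * t0⁻¹) := by group
  have hcard : S.card ≤ Nat.card H := by
    rw [Nat.card_eq_fintype_card, ← Fintype.card_coe S]
    refine Fintype.card_le_of_injective (fun t : S => (⟨t.1 * t0⁻¹, hmem t.1 t.2⟩ : H)) ?_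
    intro t t' htt
    apply Subtype.ext
    have := congrArg Subtype.val htt
    exact mul_right_cancel this
  have htop : H = ⊤ := by
    apply Subgroup.eq_top_of_card_eq
    obtain ⟨m, hm⟩ := Subgroup.card_subgroup_dvd_card H
    rw [Nat.card_eq_fintype_card (α := G)] at hm ⊢
    have h3 : m = 1 := by
      have h4 : 0 < Fintype.card G := Fintype.card_pos
      have h5 : Nat.card H * m < 2 * Nat.card H := by rw [← hm]; omega
      have h6 : m < 2 := by
        by_contra h7
        push Not at h7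
        nlinarith
      have h8 : m ≠ 0 := by
        rintro rfl
        omega
      omega
    rw [hm, h3, mul_one]
  intro g
  have hg : g ∈ H := by rw [htop]; trivial
  rw [hH, Subgroup.mem_centralizer_singleton_iff] at hg
  exact hg

theorem mil : S_MIL.{u} := by
  intro G _ _ h hh
  by_contra hcon
  push Not at hcon
  set Q := Finset.univ.filter (fun v : G => v * v = h) with hQ
  have hne : Q.Nonempty := by
    rw [← Finset.card_pos]
    omega
  obtain ⟨y, hy⟩ := hne
  have hy' : y * y = h := (Finset.mem_filter.1 hy).2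
  -- translated set
  set Q' := Finset.univ.filter (fun z : G => y * z ∈ Q) with hQ'
  have hc : Q'.card = Q.card := by
    apply Finset.card_bij (fun z _ => y * z)
    · intro z hz
      exact (Finset.mem_filter.1 hz).2
    · intro a _ b _ hab
      exact mul_left_cancel hab
    · intro b hb
      exact ⟨y⁻¹ * b, Finset.mem_filter.2 ⟨Finset.mem_univ _, by rwa [mul_inv_cancel_left]⟩, by
        rw [mul_inv_cancel_left]⟩
  have h1 : (Q ∪ Q').card + (Q ∩ Q').card = Q.card + Q'.card := Finset.card_union_add_card_inter _ _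
  have h2 : (Q ∪ Q').card ≤ Fintype.card G := Finset.card_le_univ _
  have h3 : (Q ∩ Q').card ≤ (Finset.univ.filter (fun t : G => t⁻¹ * y⁻¹ * t = h⁻¹ * y⁻¹)).card := by
    apply Finset.card_le_card
    intro z hz
    rw [Finset.mem_inter] at hz
    have hz1 : z * z = h := (Finset.mem_filter.1 hz.1).2
    have hz2 : y * z * (y * z) = h := (Finset.mem_filter.1 (Finset.mem_filter.1 hz.2).2).2
    refine Finset.mem_filter.2 ⟨Finset.mem_univ _, ?_⟩
    have h4 : z * y * z = y := by
      have : y * (z * y * z) = y * y := by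
        rw [hy', ← hz2]; group
      exact mul_left_cancel this
    have h5 : y⁻¹ = z * y⁻¹ * z := by
      have : y⁻¹ = (z * y * z)⁻¹ := by rw [h4]
      have h6 : z * (z * y * z)⁻¹ * z = z * (z⁻¹ * y⁻¹ * z⁻¹) * z := by group
      rw [this, h6]
      rw [h4]
      group
    calc z⁻¹ * y⁻¹ * z = (z * z)⁻¹ * (z * y⁻¹ * z) := by group
      _ = h⁻¹ * y⁻¹ := by rw [hz1, ← h5]
  have h4 := cen G y⁻¹ (h⁻¹ * y⁻¹) (by omega)
  have h5 : (Q ∩ Q').Nonempty := by
    rw [← Finset.card_pos]
    omega
  obtain ⟨z, hz⟩ := h5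
  have h6 : z ∈ Finset.univ.filter (fun t : G => t⁻¹ * y⁻¹ * t = h⁻¹ * y⁻¹) := by
    have h7 := h4 z
    rw [Finset.mem_inter] at hz
    have hz1 : z * z = h := (Finset.mem_filter.1 hz.1).2
    have hz2 : y * z * (y * z) = h := (Finset.mem_filter.1 (Finset.mem_filter.1 hz.2).2).2
    refine Finset.mem_filter.2 ⟨Finset.mem_univ _, ?_⟩
    exfalso
    apply hh
    -- `y` commutes with `z`
    have h8 : y * z = z * y := by
      have h9 : y * (z * y⁻¹) * y = y * (y⁻¹ * z) * y := by rw [h7]
      calc y * z = y * (z * y⁻¹) * y := by group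
        _ = y * (y⁻¹ * z) * y := h9
        _ = z * y := by group
    have h9 : y * z * (y * z) = h * h := by
      calc y * z * (y * z) = y * (z * y) * z := by group
        _ = y * (y * z) * z := by rw [h8]
        _ = (y * y) * (z * z) := by group
        _ = h * h := by rw [hy', hz1]
    rw [hz2] at h9
    have h10 : h * 1 = h * h := by rw [mul_one]; exact h9
    exact (mul_left_cancel h10).symm
  have h7 : z⁻¹ * y⁻¹ * z = h⁻¹ * y⁻¹ := (Finset.mem_filter.1 h6).2
  have h8 : z⁻¹ * y⁻¹ * z = y⁻¹ := by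
    rw [mul_assoc, ← h4 z]
    group
  rw [h8] at h7
  have h9 : h⁻¹ = 1 := by
    have : (1 : G) * y⁻¹ = h⁻¹ * y⁻¹ := by rw [one_mul]; exact h7
    exact (mul_right_cancel this).symm
  exact hh (inv_eq_one.1 h9)

end Pool.Agent.Q144.SC
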