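import Mathlib
import Pool.Agent.Q18.SC.Stm

/-!
# Project SC, job SMP: sampling
-/

open Classical

namespace Pool.Agent.Q144.SC

open Pool.Agent.Q18.SC Finset

universe u v

/-- resampling of one coordinate -/
theorem resample {I : Type v} [Fintype I] [DecidableEq I] {G : Type u} [Fintype G] (a : I) (F : (I → G) → ℝ) :
    (Fintype.card G : ℝ) * ∑ z, F z = ∑ z : I → G, ∑ g : G, F (Function.update z a g) := by
  rw [← Fintype.sum_prod_type']
  have h1 : ∑ p : (I → G) × G, F (Function.update p.1 a p.2) = ∑ p : (I → G) × G, F p.1 := by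
    let e : (I → G) × G ≃ (I → G) × G :=
      { toFun := fun p => (Function.update p.1 a p.2, p.1 a)
        invFun := fun p => (Function.update p.1 a p.2, p.1 a)
        left_inv := by
          rintro ⟨z, g⟩
          ext1
          · simp
          · simp
        right_inv := by
          rintro ⟨z, g⟩
          ext1
          · simp
          · simp }
    exact Fintype.sum_equiv e _ _ fun p => rfl
  rw [h1, Fintype.sum_prod_type]
  simp only [Finset.sum_const, Finset.card_univ, nsmul_eq_mul]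
  rw [Finset.mul_sum]

/-- the number of values of a function is at least the number of the points minus the number of
the collisions -/
theorem card_le_image {P : Type v} {C : Type u} [DecidableEq C] (s : Finset P) (φ : P → C) :
    s.card ≤ (s.image φ).card +
      ((s ×ˢ s).filter (fun p : P × P => p.1 ≠ p.2 ∧ φ p.1 = φ p.2)).card := by
  -- a section
  have hsec : ∀ v : C, v ∈ s.image φ → ∃ p ∈ s, φ p = v := fun v hv => by
    obtain ⟨p, hp, h⟩ := Finset.mem_image.1 hv
    exact ⟨p, hp, h⟩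
  choose g hg1 hg2 using hsec
  have h1 : s ⊆ (s.image φ).attach.image (fun v => g v.1 v.2) ∪
      ((s ×ˢ s).filter (fun p : P × P => p.1 ≠ p.2 ∧ φ p.1 = φ p.2)).image Prod.fst := by
    intro p hp
    have hv : φ p ∈ s.image φ := Finset.mem_image_of_mem φ hp
    by_cases h : g (φ p) hv = p
    · exact Finset.mem_union_left _ (Finset.mem_image.2 ⟨⟨φ p, hv⟩, Finset.mem_attach _ _, h⟩)
    · refine Finset.mem_union_right _ (Finset.mem_image.2 ⟨(p, g (φ p) hv), ?_, rfl⟩)
      exact Finset.mem_filter.2 ⟨Finset.mem_product.2 ⟨hp, hg1 _ hv⟩, fun h' => h h'.symm,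
        (hg2 _ hv).symm⟩
  refine (Finset.card_le_card h1).trans ((Finset.card_union_le _ _).trans
    (Nat.add_le_add (Finset.card_image_le.trans ?_) Finset.card_image_le))
  rw [Finset.card_attach]

/-- at most two solutions -/
theorem two_sol {G : Type u} [Fintype G] (p : G → Prop) [DecidablePred p] (a b : G) (h : ∀ g, p g → g = a ∨ g = b) :
    ∑ g : G, (if p g then (1 : ℝ) else 0) ≤ 2 := by
  rw [← Finset.sum_filter, Finset.sum_const, nsmul_eq_mul, mul_one]
  have h1 : (univ.filter p) ⊆ {a, b} := by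
    intro g hg
    rw [Finset.mem_insert, Finset.mem_singleton]
    exact h g (Finset.mem_filter.1 hg).2
  have h2 := (Finset.card_le_card h1).trans Finset.card_le_two
  exact_mod_cast h2

section

variable {G : Type u} [Group G] [Fintype G] {k : ℕ}

/-- number of the pairs in `T` -/
noncomputable def NN (T : Finset (G × G)) (z : Fin k ⊕ Fin k → G) : ℝ :=
  ∑ p : Fin k × Fin k, if (z (Sum.inl p.1), z (Sum.inr p.2)) ∈ T then (1 : ℝ) else 0

/-- number of the collisions -/
noncomputable def CC (z : Fin k ⊕ Fin k → G) : ℝ :=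
  ∑ p : (Fin k × Fin k) × (Fin k × Fin k), if p.1 ≠ p.2 ∧
    q (z (Sum.inr p.1.2) * (z (Sum.inl p.1.1))⁻¹) = q (z (Sum.inr p.2.2) * (z (Sum.inl p.2.1))⁻¹)
    then (1 : ℝ) else 0

theorem sum_NN (T : Finset (G × G)) :
    (Fintype.card G : ℝ) ^ 2 * ∑ z : Fin k ⊕ Fin k → G, NN T z =
      (k : ℝ) ^ 2 * T.card * (Fintype.card (Fin k ⊕ Fin k → G) : ℝ) := by
  unfold NN
  rw [Finset.sum_comm, Finset.mul_sum]
  have h1 : ∀ p : Fin k × Fin k, (Fintype.card G : ℝ) ^ 2 * ∑ z : Fin k ⊕ Fin k → G,
      (if (z (Sum.inl p.1), z (Sum.inr p.2)) ∈ T then (1 : ℝ) else 0) =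
      T.card * (Fintype.card (Fin k ⊕ Fin k → G) : ℝ) := by
    intro p
    rw [pow_two, mul_assoc, resample (I := Fin k ⊕ Fin k) (G := G) (Sum.inl p.1), resample (I := Fin k ⊕ Fin k) (G := G) (Sum.inr p.2)]
    have h2 : ∀ z : Fin k ⊕ Fin k → G, ∑ h : G, ∑ g : G,
        (if ((Function.update (Function.update z (Sum.inr p.2) h) (Sum.inl p.1) g) (Sum.inl p.1),
          (Function.update (Function.update z (Sum.inr p.2) h) (Sum.inl p.1) g) (Sum.inr p.2)) ∈ T
          then (1 : ℝ) else 0) = T.card := by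
      intro z
      have h3 : ∀ h g : G, (if ((Function.update (Function.update z (Sum.inr p.2) h) (Sum.inl p.1) g)
          (Sum.inl p.1), (Function.update (Function.update z (Sum.inr p.2) h) (Sum.inl p.1) g)
          (Sum.inr p.2)) ∈ T then (1 : ℝ) else 0) = if (g, h) ∈ T then 1 else 0 := by
        intro h g
        rw [Function.update_self, Function.update_of_ne (by simp), Function.update_self]
      simp only [h3]
      rw [Finset.sum_comm, ← Fintype.sum_prod_type' (f := fun g h => if (g, h) ∈ T then (1 : ℝ) else 0)]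
      simp
    have h4 : ∀ z : Fin k ⊕ Fin k → G, ∑ h : G, ∑ g : G,
        (if ((Function.update (Function.update z (Sum.inr p.2) h) (Sum.inl p.1) g) (Sum.inl p.1),
          (Function.update (Function.update z (Sum.inr p.2) h) (Sum.inl p.1) g) (Sum.inr p.2)) ∈ T
          then (1 : ℝ) else 0) = T.card := h2
    rw [Finset.sum_congr rfl fun z _ => h4 z, Finset.sum_const, Finset.card_univ, nsmul_eq_mul,
      mul_comm]
  rw [Finset.sum_congr rfl fun p _ => h1 p, Finset.sum_const, Finset.card_univ, nsmul_eq_mul]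
  simp only [Fintype.card_prod, Fintype.card_fin, Nat.cast_mul]
  ring

theorem sum_CC :
    (Fintype.card G : ℝ) * ∑ z : Fin k ⊕ Fin k → G, CC z ≤
      2 * (k : ℝ) ^ 4 * (Fintype.card (Fin k ⊕ Fin k → G) : ℝ) := by
  unfold CC
  rw [Finset.sum_comm, Finset.mul_sum]
  have h1 : ∀ p : (Fin k × Fin k) × (Fin k × Fin k),
      (Fintype.card G : ℝ) * ∑ z : Fin k ⊕ Fin k → G, (if p.1 ≠ p.2 ∧
        q (z (Sum.inr p.1.2) * (z (Sum.inl p.1.1))⁻¹) =
        q (z (Sum.inr p.2.2) * (z (Sum.inl p.2.1))⁻¹) then (1 : ℝ) else 0) ≤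
      2 * (Fintype.card (Fin k ⊕ Fin k → G) : ℝ) := by
    rintro ⟨⟨i, j⟩, ⟨i', j'⟩⟩
    by_cases hi : i = i'
    · subst hi
      by_cases hj : j = j'
      · subst hj
        simp
      · rw [resample (I := Fin k ⊕ Fin k) (G := G) (Sum.inr j)]
        have h2 : ∀ z : Fin k ⊕ Fin k → G, ∑ g : G, (if ((i, j) : Fin k × Fin k) ≠ (i, j') ∧
            q ((Function.update z (Sum.inr j) g) (Sum.inr j) *
              ((Function.update z (Sum.inr j) g) (Sum.inl i))⁻¹) =
            q ((Function.update z (Sum.inr j) g) (Sum.inr j') *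
              ((Function.update z (Sum.inr j) g) (Sum.inl i))⁻¹) then (1 : ℝ) else 0) ≤ 2 := by
          intro z
          refine two_sol _ (z (Sum.inr j'))
            ((z (Sum.inr j') * (z (Sum.inl i))⁻¹)⁻¹ * z (Sum.inl i)) ?_
          rintro g ⟨-, hg⟩
          rw [Function.update_self, Function.update_of_ne (by simp),
            Function.update_of_ne (by simpa using Ne.symm hj), q_eq_iff] at hg
          rcases hg with hg | hg
          · left
            exact mul_right_cancel hg
          · right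
            rw [← hg]
            group
        refine (Finset.sum_le_sum fun z _ => h2 z).trans ?_
        rw [Finset.sum_const, Finset.card_univ, nsmul_eq_mul, mul_comm]
    · rw [resample (I := Fin k ⊕ Fin k) (G := G) (Sum.inl i)]
      have h2 : ∀ z : Fin k ⊕ Fin k → G, ∑ g : G, (if ((i, j) : Fin k × Fin k) ≠ (i', j') ∧
          q ((Function.update z (Sum.inl i) g) (Sum.inr j) *
            ((Function.update z (Sum.inl i) g) (Sum.inl i))⁻¹) =
          q ((Function.update z (Sum.inl i) g) (Sum.inr j') *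
            ((Function.update z (Sum.inl i) g) (Sum.inl i'))⁻¹) then (1 : ℝ) else 0) ≤ 2 := by
        intro z
        refine two_sol _ ((z (Sum.inr j') * (z (Sum.inl i'))⁻¹)⁻¹ * z (Sum.inr j))
          ((z (Sum.inr j') * (z (Sum.inl i'))⁻¹) * z (Sum.inr j)) ?_
        rintro g ⟨-, hg⟩
        rw [Function.update_self, Function.update_of_ne (by simp),
          Function.update_of_ne (by simp),
          Function.update_of_ne (by simpa using Ne.symm hi), q_eq_iff] at hg
        rcases hg with hg | hg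
        · left
          rw [← hg]
          group
        · right
          have h3 : (z (Sum.inr j') * (z (Sum.inl i'))⁻¹) = (z (Sum.inr j) * g⁻¹)⁻¹ := by
            rw [hg, inv_inv]
          rw [h3]
          group
      refine (Finset.sum_le_sum fun z _ => h2 z).trans ?_
      rw [Finset.sum_const, Finset.card_univ, nsmul_eq_mul, mul_comm]
  refine (Finset.sum_le_sum fun p _ => h1 p).trans ?_
  rw [Finset.sum_const, Finset.card_univ, nsmul_eq_mul]
  simp only [Fintype.card_prod, Fintype.card_fin, Nat.cast_mul]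
  apply le_of_eq
  ring

end

theorem smp : S_SMP.{u} := by
  intro G _ _ T τ k hτ hT hk
  set n : ℝ := (Fintype.card G : ℝ) with hn
  have hn1 : (1 : ℝ) ≤ n := by
    rw [hn]; exact_mod_cast Fintype.card_pos
  have hn0 : 0 < n := by linarith
  set M : ℝ := (Fintype.card (Fin k ⊕ Fin k → G) : ℝ) with hM
  have hM0 : 0 < M := by
    rw [hM]
    have : 0 < Fintype.card (Fin k ⊕ Fin k → G) := Fintype.card_pos
    exact_mod_cast this
  have h1 := sum_NN (k := k) T
  have h2 := sum_CC (G := G) (k := k)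
  rw [← hn, ← hM] at h1 h2
  obtain ⟨z, hz⟩ : ∃ z : Fin k ⊕ Fin k → G, τ / 2 * (k : ℝ) ^ 2 ≤ NN T z - CC z := by
    by_contra hcon
    push Not at hcon
    have h3 : ∑ z : Fin k ⊕ Fin k → G, (NN T z - CC z) < ∑ z : Fin k ⊕ Fin k → G, τ / 2 * (k : ℝ) ^ 2 :=
      Finset.sum_lt_sum_of_nonempty ⟨fun _ => 1, Finset.mem_univ _⟩ fun z _ => hcon z
    rw [Finset.sum_sub_distrib, Finset.sum_const, Finset.card_univ, nsmul_eq_mul, ← hM] at h3
    have h4 : n ^ 2 * (∑ z : Fin k ⊕ Fin k → G, NN T z - ∑ z : Fin k ⊕ Fin k → G, CC z) <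
        n ^ 2 * (M * (τ / 2 * (k : ℝ) ^ 2)) := mul_lt_mul_of_pos_left h3 (by positivity)
    have h5 : n ^ 2 * ∑ z : Fin k ⊕ Fin k → G, CC z ≤ n * (2 * (k : ℝ) ^ 4 * M) := by
      have := mul_le_mul_of_nonneg_left h2 hn0.le
      nlinarith
    have h6 : (k : ℝ) ^ 2 * (τ * n ^ 2) * M ≤ (k : ℝ) ^ 2 * T.card * M := by gcongr
    have h7 : n * (2 * (k : ℝ) ^ 4 * M) ≤ n * M * (k : ℝ) ^ 2 * (τ * n) / 2 := by
      have h8 : 0 ≤ n * M * (k : ℝ) ^ 2 := by positivity
      nlinarith [mul_le_mul_of_nonneg_left hk h8]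
    rw [mul_sub, h1] at h4
    nlinarith
  refine ⟨fun i => z (Sum.inl i), fun j => z (Sum.inr j), hz.trans ?_⟩
  set P := Finset.univ.filter (fun p : Fin k × Fin k => (z (Sum.inl p.1), z (Sum.inr p.2)) ∈ T) with hP
  set φ : Fin k × Fin k → Cls G := fun p => q (z (Sum.inr p.2) * (z (Sum.inl p.1))⁻¹) with hφ
  have h3 := card_le_image P φ
  have h4 : NN T z = P.card := by
    unfold NN
    rw [hP, Finset.card_filter]
    push_cast
    rfl
  have h5 : (((P ×ˢ P).filter (fun p : (Fin k × Fin k) × (Fin k × Fin k) =>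
      p.1 ≠ p.2 ∧ φ p.1 = φ p.2)).card : ℝ) ≤ CC z := by
    unfold CC
    rw [← Finset.sum_filter, Finset.sum_const, nsmul_eq_mul, mul_one]
    have h6 : ((P ×ˢ P).filter (fun p : (Fin k × Fin k) × (Fin k × Fin k) =>
      p.1 ≠ p.2 ∧ φ p.1 = φ p.2)) ⊆ univ.filter (fun p : (Fin k × Fin k) × (Fin k × Fin k) =>
        p.1 ≠ p.2 ∧ q (z (Sum.inr p.1.2) * (z (Sum.inl p.1.1))⁻¹) =
          q (z (Sum.inr p.2.2) * (z (Sum.inl p.2.1))⁻¹)) := by
      intro p hp
      exact Finset.mem_filter.2 ⟨Finset.mem_univ _, (Finset.mem_filter.1 hp).2⟩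
    exact_mod_cast Finset.card_le_card h6
  have h6 : (P.card : ℝ) ≤ ((P.image φ).card : ℝ) +
      (((P ×ˢ P).filter (fun p : (Fin k × Fin k) × (Fin k × Fin k) =>
        p.1 ≠ p.2 ∧ φ p.1 = φ p.2)).card : ℝ) := by exact_mod_cast h3
  rw [h4]
  linarith

end Pool.Agent.Q144.SC
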