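import Mathlib
import Pool.Agent.Q144.SC.Rga

/-!
# Project SC, job STR: the structure theorem
-/

open Classical

namespace Pool.Agent.Q144.SC

open Pool.Agent.Q18.SC Finset

universe u

theorem not_mem_badSet {G : Type u} [Group G] [Fintype G] {f f' : G → G} {x y : G}
    (h : (x, y) ∉ badSet f f') : f x = f' y ∨ (y⁻¹ * x) ^ 2 = f' y * (f x)⁻¹ := by
  by_contra h2
  exact h (Finset.mem_filter.2 ⟨Finset.mem_univ _, h2⟩)

theorem exc {G : Type u} [Fintype G] (F : G → ℝ) (hF : ∀ x, 0 ≤ F x) {A B : ℝ} (hA : 0 < A)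
    (hs : ∑ x, F x ≤ B * A) : ((univ.filter fun x => ¬ F x ≤ A).card : ℝ) ≤ B := by
  have h1 : ((univ.filter fun x => ¬ F x ≤ A).card : ℝ) * A ≤ B * A := by
    refine le_trans ?_ hs
    refine le_trans ?_ (Finset.sum_le_univ_sum_of_nonneg (s := univ.filter fun x => ¬ F x ≤ A) hF)
    rw [← nsmul_eq_mul]
    refine Finset.card_nsmul_le_sum _ _ _ fun t ht => ?_
    have := (Finset.mem_filter.1 ht).2
    push Not at this
    exact this.le
  exact le_of_mul_le_mul_right h1 hA

theorem str (h1 : S_RGA.{u}) (h2 : S_ANT.{u}) : S_STR.{u} := by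
  intro ε hε
  set δ : ℝ := min (1 / 32) (ε / 8) with hδ
  have hδ0 : 0 < δ := lt_min (by norm_num) (by linarith)
  have hδ1 : δ ≤ 1 / 32 := min_le_left _ _
  have hδ2 : δ ≤ ε / 8 := min_le_right _ _
  set d : ℝ := ε / (2 * (1 + 2 / δ) ^ 2) with hd
  have hd0 : 0 < d := by positivity
  obtain ⟨c1, hc1, hant⟩ := h2 d hd0
  set c : ℝ := min (min c1 δ) (ε * δ / 8) with hc
  have hc0 : 0 < c := lt_min (lt_min hc1 hδ0) (by positivity)
  have hcc1 : c ≤ c1 := (min_le_left _ _).trans (min_le_left _ _)
  have hcδ : c ≤ δ := (min_le_left _ _).trans (min_le_right _ _)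
  have hcε : c ≤ ε * δ / 8 := min_le_right _ _
  refine ⟨c, hc0, ?_⟩
  intro G _ _ f f' hbad
  set n : ℝ := (Fintype.card G : ℝ) with hn
  have hn1 : (1 : ℝ) ≤ n := by
    rw [hn]; exact_mod_cast Fintype.card_pos
  have hn0 : 0 < n := by linarith
  set bad := badSet f f' with hbd
  set E := univ.filter (fun p : G × G => f p.1 = f' p.2) with hE
  rcases le_or_gt (E.card : ℝ) (δ * n ^ 2) with hEc | hEc
  · have h3 : badInv f f' ⊆ bad ∪ E := by
      intro p hp
      have hp' := (Finset.mem_filter.1 hp).2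
      by_cases h4 : f p.1 = f' p.2
      · exact Finset.mem_union_right _ (Finset.mem_filter.2 ⟨Finset.mem_univ _, h4⟩)
      · refine Finset.mem_union_left _ (Finset.mem_filter.2 ⟨Finset.mem_univ _, ?_⟩)
        rintro (h5 | h5)
        · exact h4 h5
        · exact hp' h5
    have h4 : ((badInv f f').card : ℝ) ≤ (bad.card : ℝ) + (E.card : ℝ) := by
      exact_mod_cast (Finset.card_le_card h3).trans (Finset.card_union_le _ _)
    have h5 := h1 G f f' (c + δ) (by linarith) (by rw [← hn]; linarith)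
    rw [← hn] at h5
    refine h5.trans ?_
    apply mul_le_mul_of_nonneg_right _ hn0.le
    linarith
  by_contra hcon
  push Not at hcon
  -- a large fibre of `f`
  obtain ⟨y0, hy0⟩ : ∃ y0, δ * n < ((univ.filter (fun x => f x = f' y0)).card : ℝ) := by
    by_contra hcon2
    push Not at hcon2
    have h3 : (E.card : ℝ) = ∑ y : G, ((univ.filter (fun x => f x = f' y)).card : ℝ) := by
      rw [← sum_col E]
      push_cast
      refine Finset.sum_congr rfl fun y _ => ?_
      congr 2
      ext x
      simp [hE]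
    have h4 : ∑ y : G, ((univ.filter (fun x => f x = f' y)).card : ℝ) ≤ ∑ y : G, δ * n :=
      Finset.sum_le_sum fun y _ => hcon2 y
    rw [Finset.sum_const, Finset.card_univ, nsmul_eq_mul, ← hn] at h4
    nlinarith
  obtain ⟨x0, hx0⟩ : ∃ x0, δ * n < ((univ.filter (fun y => f' y = f x0)).card : ℝ) := by
    by_contra hcon2
    push Not at hcon2
    have h3 : (E.card : ℝ) = ∑ x : G, ((univ.filter (fun y => f' y = f x)).card : ℝ) := by
      rw [← sum_row E]
      push_cast
      refine Finset.sum_congr rfl fun x _ => ?_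
      congr 2
      ext y
      simp [hE, eq_comm]
    have h4 : ∑ x : G, ((univ.filter (fun y => f' y = f x)).card : ℝ) ≤ ∑ y : G, δ * n :=
      Finset.sum_le_sum fun y _ => hcon2 y
    rw [Finset.sum_const, Finset.card_univ, nsmul_eq_mul, ← hn] at h4
    nlinarith
  set a := f' y0 with ha
  set b := f x0 with hb
  set row : G → ℝ := fun x => ((univ.filter (fun y => (x, y) ∈ bad)).card : ℝ) with hrow
  set col : G → ℝ := fun y => ((univ.filter (fun x => (x, y) ∈ bad)).card : ℝ) with hcol
  have hrow0 : ∀ x, 0 ≤ row x := fun x => Nat.cast_nonneg _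
  have hcol0 : ∀ x, 0 ≤ col x := fun x => Nat.cast_nonneg _
  have hrs : ∑ x, row x ≤ c * n ^ 2 := by
    refine le_trans (le_of_eq ?_) hbad
    rw [hrow, ← Nat.cast_sum, sum_row]
  have hcs : ∑ x, col x ≤ c * n ^ 2 := by
    refine le_trans (le_of_eq ?_) hbad
    rw [hcol, ← Nat.cast_sum, sum_col]
  set A : ℝ := δ * n / 2 with hA
  have hA0 : 0 < A := by positivity
  have hBA : c * n ^ 2 = (2 * c / δ * n) * A := by rw [hA]; field_simp
  have hex1 := exc row hrow0 (A := A) (B := 2 * c / δ * n) hA0 (by rw [← hBA]; exact hrs)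
  have hex2 := exc col hcol0 (A := A) (B := 2 * c / δ * n) hA0 (by rw [← hBA]; exact hcs)
  -- popular squares
  set Sq : G → ℝ := fun v => ((univ.filter (fun t : G => t ^ 2 = v)).card : ℝ) with hSq
  set W := univ.filter (fun v => A ≤ Sq v) with hW
  have hWc : (W.card : ℝ) ≤ 2 / δ := by
    have h3 : ∑ v, Sq v = n := by
      have h4 := Finset.card_eq_sum_card_fiberwise (s := (univ : Finset G)) (t := (univ : Finset G))
        (f := fun t : G => t ^ 2) (fun t _ => Finset.mem_univ _)
      rw [Finset.card_univ] at h4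
      rw [hn, h4, Nat.cast_sum]
    have h4 : (W.card : ℝ) * A ≤ 2 / δ * A := by
      have h5 : 2 / δ * A = ∑ v, Sq v := by rw [h3, hA]; field_simp
      rw [h5]
      refine le_trans ?_ (Finset.sum_le_univ_sum_of_nonneg (s := W) fun v => Nat.cast_nonneg _)
      rw [← nsmul_eq_mul]
      exact Finset.card_nsmul_le_sum _ _ _ fun t ht => (Finset.mem_filter.1 ht).2
    exact le_of_mul_le_mul_right h4 hA0
  have hvalY : ∀ y, col y ≤ A → f' y ∈ insert a (W.image (fun v => v * a)) := by
    intro y hy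
    by_cases h3 : f' y = a
    · rw [h3]; exact Finset.mem_insert_self _ _
    refine Finset.mem_insert_of_mem (Finset.mem_image.2 ⟨f' y * a⁻¹, ?_, by group⟩)
    refine Finset.mem_filter.2 ⟨Finset.mem_univ _, ?_⟩
    have h4 : (univ.filter (fun x => f x = a)).card ≤
        (univ.filter (fun x => (x, y) ∈ bad)).card +
        (univ.filter (fun t : G => t ^ 2 = f' y * a⁻¹)).card := by
      have h5 : (univ.filter (fun x => f x = a)) ⊆ (univ.filter (fun x => (x, y) ∈ bad)) ∪
          (univ.filter (fun t : G => t ^ 2 = f' y * a⁻¹)).image (fun t => y * t) := by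
        intro x hx
        have hx' := (Finset.mem_filter.1 hx).2
        by_cases h6 : (x, y) ∈ bad
        · exact Finset.mem_union_left _ (Finset.mem_filter.2 ⟨Finset.mem_univ _, h6⟩)
        · refine Finset.mem_union_right _ (Finset.mem_image.2 ⟨y⁻¹ * x, ?_, mul_inv_cancel_left _ _⟩)
          refine Finset.mem_filter.2 ⟨Finset.mem_univ _, ?_⟩
          rcases not_mem_badSet h6 with h7 | h7
          · exact absurd (h7.symm.trans hx') h3
          · rw [h7, hx']
      exact (Finset.card_le_card h5).trans ((Finset.card_union_le _ _).trans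
        (Nat.add_le_add_left Finset.card_image_le _))
    have h5 : ((univ.filter (fun x => f x = a)).card : ℝ) ≤ col y + Sq (f' y * a⁻¹) := by
      have h6 : ((univ.filter (fun x => f x = a)).card : ℝ) ≤
        ((univ.filter (fun x => (x, y) ∈ bad)).card : ℝ) +
        ((univ.filter (fun t : G => t ^ 2 = f' y * a⁻¹)).card : ℝ) := by exact_mod_cast h4
      exact h6
    linarith
  have hvalX : ∀ x, row x ≤ A → f x ∈ insert b (W.image (fun v => v⁻¹ * b)) := by
    intro x hx
    by_cases h3 : f x = b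
    · rw [h3]; exact Finset.mem_insert_self _ _
    refine Finset.mem_insert_of_mem (Finset.mem_image.2 ⟨b * (f x)⁻¹, ?_, by group⟩)
    refine Finset.mem_filter.2 ⟨Finset.mem_univ _, ?_⟩
    have h4 : (univ.filter (fun y => f' y = b)).card ≤
        (univ.filter (fun y => (x, y) ∈ bad)).card +
        (univ.filter (fun t : G => t ^ 2 = b * (f x)⁻¹)).card := by
      have h5 : (univ.filter (fun y => f' y = b)) ⊆ (univ.filter (fun y => (x, y) ∈ bad)) ∪
          (univ.filter (fun t : G => t ^ 2 = b * (f x)⁻¹)).image (fun t => x * t⁻¹) := by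
        intro y hy
        have hy' := (Finset.mem_filter.1 hy).2
        by_cases h6 : (x, y) ∈ bad
        · exact Finset.mem_union_left _ (Finset.mem_filter.2 ⟨Finset.mem_univ _, h6⟩)
        · refine Finset.mem_union_right _ (Finset.mem_image.2 ⟨y⁻¹ * x, ?_, by group⟩)
          refine Finset.mem_filter.2 ⟨Finset.mem_univ _, ?_⟩
          rcases not_mem_badSet h6 with h7 | h7
          · exact absurd (h7.trans hy') h3
          · rw [h7, hy']
      exact (Finset.card_le_card h5).trans ((Finset.card_union_le _ _).trans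
        (Nat.add_le_add_left Finset.card_image_le _))
    have h5 : ((univ.filter (fun y => f' y = b)).card : ℝ) ≤ row x + Sq (b * (f x)⁻¹) := by
      have h6 : ((univ.filter (fun y => f' y = b)).card : ℝ) ≤
        ((univ.filter (fun y => (x, y) ∈ bad)).card : ℝ) +
        ((univ.filter (fun t : G => t ^ 2 = b * (f x)⁻¹)).card : ℝ) := by exact_mod_cast h4
      exact h6
    linarith
  set V := insert b (W.image (fun v => v⁻¹ * b)) with hV
  set V' := insert a (W.image (fun v => v * a)) with hV'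
  have hVc : (V.card : ℝ) ≤ 1 + 2 / δ := by
    have h3 : V.card ≤ W.card + 1 := (Finset.card_insert_le _ _).trans
      (Nat.add_le_add_right Finset.card_image_le _)
    have h4 : (V.card : ℝ) ≤ W.card + 1 := by exact_mod_cast h3
    linarith
  have hVc' : (V'.card : ℝ) ≤ 1 + 2 / δ := by
    have h3 : V'.card ≤ W.card + 1 := (Finset.card_insert_le _ _).trans
      (Nat.add_le_add_right Finset.card_image_le _)
    have h4 : (V'.card : ℝ) ≤ W.card + 1 := by exact_mod_cast h3
    linarith
  set S := univ.filter (fun x => f x ≠ f' x ∧ row x ≤ A ∧ col x ≤ A) with hS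
  have hSc : ε / 2 * n ≤ (S.card : ℝ) := by
    have h3 : (univ.filter (fun x : G => f x ≠ f' x)) ⊆ S ∪ ((univ.filter fun x => ¬ row x ≤ A) ∪
        (univ.filter fun x => ¬ col x ≤ A)) := by
      intro x hx
      have hx' := (Finset.mem_filter.1 hx).2
      by_cases h4 : row x ≤ A
      · by_cases h5 : col x ≤ A
        · exact Finset.mem_union_left _ (Finset.mem_filter.2 ⟨Finset.mem_univ _, hx', h4, h5⟩)
        · exact Finset.mem_union_right _ (Finset.mem_union_right _
            (Finset.mem_filter.2 ⟨Finset.mem_univ _, h5⟩))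
      · exact Finset.mem_union_right _ (Finset.mem_union_left _
            (Finset.mem_filter.2 ⟨Finset.mem_univ _, h4⟩))
    have h4 := (Finset.card_le_card h3).trans ((Finset.card_union_le _ _).trans
      (Nat.add_le_add_left (Finset.card_union_le _ _) _))
    have h5 : ((univ.filter (fun x : G => f x ≠ f' x)).card : ℝ) ≤ (S.card : ℝ) +
        (((univ.filter fun x => ¬ row x ≤ A).card : ℝ) +
        ((univ.filter fun x => ¬ col x ≤ A).card : ℝ)) := by exact_mod_cast h4
    have h6 : 2 * c / δ * n ≤ ε / 4 * n := by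
      apply mul_le_mul_of_nonneg_right _ hn0.le
      rw [div_le_iff₀ hδ0]
      linarith
    linarith
  -- pigeonhole
  obtain ⟨v, hv, hvc⟩ : ∃ v ∈ V ×ˢ V', d * n ≤ ((S.filter (fun x => (f x, f' x) = v)).card : ℝ) := by
    by_contra hcon2
    push Not at hcon2
    have h3 : (S.card : ℝ) = ∑ v ∈ V ×ˢ V', ((S.filter (fun x => (f x, f' x) = v)).card : ℝ) := by
      have h4 := Finset.card_eq_sum_card_fiberwise (s := S) (t := V ×ˢ V')
        (f := fun x : G => (f x, f' x)) (fun x hx => by
          have hx' := (Finset.mem_filter.1 hx).2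
          exact Finset.mem_product.2 ⟨hvalX x hx'.2.1, hvalY x hx'.2.2⟩)
      rw [h4, Nat.cast_sum]
    have h4 : ∑ v ∈ V ×ˢ V', ((S.filter (fun x => (f x, f' x) = v)).card : ℝ) <
        ∑ v ∈ V ×ˢ V', d * n := by
      apply Finset.sum_lt_sum_of_nonempty _ hcon2
      exact ⟨(b, a), Finset.mem_product.2 ⟨Finset.mem_insert_self _ _, Finset.mem_insert_self _ _⟩⟩
    rw [Finset.sum_const, Finset.card_product, nsmul_eq_mul, Nat.cast_mul] at h4
    have h5 : (V.card : ℝ) * V'.card * (d * n) ≤ (1 + 2 / δ) * (1 + 2 / δ) * (d * n) := by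
      gcongr
    have h6 : (1 + 2 / δ) * (1 + 2 / δ) * (d * n) = ε / 2 * n := by
      have h7 : (1 + 2 / δ) ≠ 0 := by positivity
      rw [hd]; field_simp
    linarith
  set Y := S.filter (fun x => (f x, f' x) = v) with hY
  have hYne : Y.Nonempty := by
    rw [← Finset.card_pos]
    have : (0 : ℝ) < Y.card := lt_of_lt_of_le (by positivity) hvc
    exact_mod_cast this
  have hYf : ∀ x ∈ Y, f x = v.1 := fun x hx => congrArg Prod.fst (Finset.mem_filter.1 hx).2
  have hYf' : ∀ x ∈ Y, f' x = v.2 := fun x hx => congrArg Prod.snd (Finset.mem_filter.1 hx).2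
  have hne : v.1 ≠ v.2 := by
    obtain ⟨x, hx⟩ := hYne
    rw [← hYf x hx, ← hYf' x hx]
    exact (Finset.mem_filter.1 (Finset.mem_filter.1 hx).1).2.1
  have h3 := hant G (v.2 * (v.1)⁻¹) Y (by
    intro h
    apply hne
    exact (mul_inv_eq_one.1 h).symm) hvc
  have h4 : ((Y ×ˢ Y).filter (fun p : G × G => (p.2⁻¹ * p.1) ^ 2 ≠ v.2 * (v.1)⁻¹)) ⊆ bad := by
    rintro ⟨x, y⟩ hp
    obtain ⟨hp1, hp2⟩ := Finset.mem_filter.1 hp
    obtain ⟨hp3, hp4⟩ := Finset.mem_product.1 hp1
    by_contra h5
    rcases not_mem_badSet h5 with h6 | h6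
    · rw [hYf x hp3, hYf' y hp4] at h6
      exact hne h6
    · rw [hYf x hp3, hYf' y hp4] at h6
      exact hp2 h6
  have h5 : (((Y ×ˢ Y).filter (fun p : G × G => (p.2⁻¹ * p.1) ^ 2 ≠ v.2 * (v.1)⁻¹)).card : ℝ) ≤
      (bad.card : ℝ) := by exact_mod_cast Finset.card_le_card h4
  rw [← hn] at h3
  have h6 : c * n ^ 2 ≤ c1 * n ^ 2 := by
    apply mul_le_mul_of_nonneg_right hcc1 (by positivity)
  linarith

end Pool.Agent.Q144.SC
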